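import Pool.Agent.helper50.NPT.Spec2

/-!
Row npt:FPB (comparison of the two descriptions of the cohomology of the Witt vectors).
-/

namespace NPT

open scoped Classical
open AN
open Pool.Agent.helper53.AU

noncomputable section

theorem FPB_dec (p : ℕ) [Fact p.Prime] {B : Type} [CommRing B] (X : WittVector p B) :
    X = WittVector.teichmuller p (X.coeff 0) + WittVector.verschiebung (WittVector.mk p fun i => X.coeff (i + 1)) := by
  ext n
  rw [WittVector.coeff_add_of_disjoint]
  · cases n with
    | zero => rw [WittVector.teichmuller_coeff_zero, WittVector.verschiebung_coeff_zero, add_zero]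
    | succ n =>
      rw [WittVector.teichmuller_coeff_pos p _ (n + 1) (Nat.succ_pos n), WittVector.verschiebung_coeff_succ, zero_add]
      rfl
  · intro m
    cases m with
    | zero => exact Or.inr (WittVector.verschiebung_coeff_zero _)
    | succ m => exact Or.inl (WittVector.teichmuller_coeff_pos p _ (m + 1) (Nat.succ_pos m))

theorem FPB_zero (p : ℕ) [Fact p.Prime] {B : Type} [CommRing B] (D : ℕ → WittVector p B) (hD : ∀ n, D n = WittVector.verschiebung (D (n + 1))) :
    ∀ m n, (D n).coeff m = 0 := by
  intro m
  induction m with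
  | zero =>
    intro n
    rw [hD n]
    exact WittVector.verschiebung_coeff_zero _
  | succ m ih =>
    intro n
    rw [hD n, WittVector.verschiebung_coeff_succ]
    exact ih (n + 1)

/-- the subring of the functions regular outside `S` -/
def FPB_SF {k F : Type} [Field k] [Field F] [Algebra k F] (S : Set (Place k F)) : Subring F where
  carrier := RegS S
  mul_mem' := fun {a b} ha hb P hP => by simpa using (ha P hP).mul (hb P hP)
  one_mem' := fun P _ => by
    have h := P.ge_const (1 : k)
    rwa [map_one] at h
  add_mem' := fun {a b} ha hb P hP => (ha P hP).add (hb P hP)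
  zero_mem' := fun P _ => P.ge_zero _
  neg_mem' := fun {a} ha P hP => (ha P hP).neg

/-- power series as a subring -/
def FPB_SP (k : Type) [Field k] : Subring (LS k) where
  carrier := (PS k : Set (LS k))
  mul_mem' := fun {a b} ha hb => PS_mul ha hb
  one_mem' := one_mem_PS
  add_mem' := fun {a b} ha hb => (PS k).add_mem ha hb
  zero_mem' := (PS k).zero_mem
  neg_mem' := fun {a} ha => (PS k).neg_mem ha

/-- the subring `A` -/
def FPB_SA (hKB : KB_stmt) (k : Type) [Field k] (g : ℕ) (γ : Fin g → ℕ) (a : ℕ → LS k) (h : IsK γ a) : Subring (LS k) where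
  carrier := (AA γ a : Set (LS k))
  mul_mem' := fun {x y} hx hy => (hKB k g γ a h).2.2.2.1 x hx y hy
  one_mem' := by
    have h1 := (hKB k g γ a h).2.1 1
    rwa [map_one] at h1
  add_mem' := fun {x y} hx hy => (AA γ a).add_mem hx hy
  zero_mem' := (AA γ a).zero_mem
  neg_mem' := fun {x} hx => (AA γ a).neg_mem hx

/-- functoriality of `Wc` -/
theorem FPB_map (p : ℕ) [Fact p.Prime] {B B' : Type} [CommRing B] [CommRing B'] (φ : B →+* B') (S : Set B) (S' : Set B') (h : ∀ x ∈ S, φ x ∈ S')
    (X : WittVector p B) (hX : X ∈ Wc p S) : WittVector.map φ X ∈ Wc p S' := by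
  unfold Wc at hX
  induction hX using AddSubgroup.closure_induction with
  | mem x hx =>
    refine AddSubgroup.subset_closure fun n => ?_
    rw [WittVector.map_coeff]
    exact h _ (hx n)
  | zero =>
    rw [map_zero]
    exact AddSubgroup.zero_mem _
  | add x y _ _ hx hy =>
    rw [map_add]
    exact AddSubgroup.add_mem _ hx hy
  | neg x _ hx =>
    rw [map_neg]
    exact AddSubgroup.neg_mem _ hx

theorem FPB_PS {k F : Type} [Field k] [Field F] [Algebra k F] (P : Place k F) (ι : F →+* LS k) (hι : Lau P ι) (f : F) : ι f ∈ PS k ↔ P.Ge 0 f := by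
  constructor
  · intro h
    by_cases hf : f = 0
    · exact Or.inl hf
    · right
      by_contra hlt
      push Not at hlt
      exact hι.ne f hf (h _ hlt)
  · intro h
    by_cases hf : f = 0
    · rw [hf, map_zero]
      exact (PS k).zero_mem
    · exact GE_mono (h.le hf) (hι.mem f hf)

theorem FPB (hKB : KB_stmt) (hWTA : WTA_stmt) (hWSR : WSR_stmt) (hFPA : FPA_stmt) : FPB_stmt := by
  intro p _ k F _ _ _ _ _ hF P Q hPQ ι hι g γ a hK hA
  obtain ⟨-, -, hV⟩ := hWTA p (LS k)
  constructor
  · intro X
    have step : ∀ Z : WittVector p (LS k), ∃ f : F, f ∈ (RegS {P, Q} : Set F) ∧ ∃ o : LS k, o ∈ PS k ∧ ∃ r : WittVector p (LS k),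
        Z = WittVector.teichmuller p (ι f) + WittVector.teichmuller p o + WittVector.verschiebung r := by
      intro Z
      obtain ⟨f, hf, o, ho, hfo⟩ := hFPA k F hF P Q hPQ ι hι (Z.coeff 0)
      obtain ⟨r, hr⟩ := hV (Z - (WittVector.teichmuller p (ι f) + WittVector.teichmuller p o)) (by
        have h1 := map_sub (WittVector.constantCoeff : WittVector p (LS k) →+* LS k) Z (WittVector.teichmuller p (ι f) + WittVector.teichmuller p o)
        have h2 : (Z - (WittVector.teichmuller p (ι f) + WittVector.teichmuller p o)).coeff 0 = Z.coeff 0 - (WittVector.teichmuller p (ι f) + WittVector.teichmuller p o).coeff 0 := h1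
        rw [h2, WittVector.add_coeff_zero, WittVector.teichmuller_coeff_zero, WittVector.teichmuller_coeff_zero, hfo, sub_self])
      refine ⟨f, hf, o, ho, r, ?_⟩
      rw [← hr]
      ring
    choose f hf o ho r hr using step
    obtain ⟨Xs, hXs⟩ : ∃ Xs : ℕ → WittVector p (LS k), Xs = fun n => r^[n] X := ⟨_, rfl⟩
    have hX0 : Xs 0 = X := by rw [hXs]; rfl
    have hX1 : ∀ n, Xs (n + 1) = r (Xs n) := by
      intro n
      rw [hXs]
      exact Function.iterate_succ_apply' r n X
    obtain ⟨x, hx⟩ : ∃ x : ℕ → WittVector p F, x = fun n => WittVector.mk p fun i => f (Xs (n + i)) := ⟨_, rfl⟩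
    obtain ⟨O, hO⟩ : ∃ O : ℕ → WittVector p (LS k), O = fun n => WittVector.mk p fun i => o (Xs (n + i)) := ⟨_, rfl⟩
    have hxd : ∀ n, x n = WittVector.teichmuller p (f (Xs n)) + WittVector.verschiebung (x (n + 1)) := by
      intro n
      have h1 := FPB_dec p (x n)
      have h2 : (x n).coeff 0 = f (Xs n) := by rw [hx]; rfl
      have h3 : (WittVector.mk p fun i => (x n).coeff (i + 1)) = x (n + 1) := by
        rw [hx]
        refine WittVector.ext fun i => ?_
        change f (Xs (n + (i + 1))) = f (Xs (n + 1 + i))
        rw [show n + (i + 1) = n + 1 + i by ring]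
      rw [h2, h3] at h1
      exact h1
    have hOd : ∀ n, O n = WittVector.teichmuller p (o (Xs n)) + WittVector.verschiebung (O (n + 1)) := by
      intro n
      have h1 := FPB_dec p (O n)
      have h2 : (O n).coeff 0 = o (Xs n) := by rw [hO]; rfl
      have h3 : (WittVector.mk p fun i => (O n).coeff (i + 1)) = O (n + 1) := by
        rw [hO]
        refine WittVector.ext fun i => ?_
        change o (Xs (n + (i + 1))) = o (Xs (n + 1 + i))
        rw [show n + (i + 1) = n + 1 + i by ring]
      rw [h2, h3] at h1
      exact h1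
    obtain ⟨D, hD⟩ : ∃ D : ℕ → WittVector p (LS k), D = fun n => Xs n - WittVector.map ι (x n) - O n := ⟨_, rfl⟩
    have hDV : ∀ n, D n = WittVector.verschiebung (D (n + 1)) := by
      intro n
      have e1 := hr (Xs n)
      have e2 : WittVector.map ι (x n) = WittVector.teichmuller p (ι (f (Xs n))) + WittVector.verschiebung (WittVector.map ι (x (n + 1))) := by
        conv_lhs => rw [hxd n]
        rw [map_add, WittVector.map_teichmuller, WittVector.map_verschiebung]
      have e3 := hOd n
      rw [hD]
      change Xs n - WittVector.map ι (x n) - O n = WittVector.verschiebung (Xs (n + 1) - WittVector.map ι (x (n + 1)) - O (n + 1))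
      rw [map_sub, map_sub, hX1 n]
      have e4 : Xs n - WittVector.map ι (x n) - O n = (WittVector.teichmuller p (ι (f (Xs n))) + WittVector.teichmuller p (o (Xs n)) + WittVector.verschiebung (r (Xs n))) -
          (WittVector.teichmuller p (ι (f (Xs n))) + WittVector.verschiebung (WittVector.map ι (x (n + 1)))) - (WittVector.teichmuller p (o (Xs n)) + WittVector.verschiebung (O (n + 1))) := by
        rw [← e1, ← e2, ← e3]
      rw [e4]
      ring
    have hD0 : D 0 = 0 := by
      refine WittVector.ext fun m => ?_
      rw [FPB_zero p D hDV m 0, WittVector.zero_coeff]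
    refine ⟨x 0, ?_, ?_⟩
    · refine AddSubgroup.subset_closure fun n => ?_
      rw [hx]
      exact hf _
    · have h1 : X - WittVector.map ι (x 0) = O 0 := by
        rw [hD] at hD0
        have h2 : Xs 0 - WittVector.map ι (x 0) - O 0 = 0 := hD0
        rw [hX0] at h2
        exact sub_eq_zero.1 h2
      rw [h1]
      refine AddSubgroup.mem_sup_right (AddSubgroup.subset_closure fun n => ?_)
      rw [hO]
      exact ho _
  · intro x hx
    constructor
    · intro h
      obtain ⟨α, hα, β, hβ, hαβ⟩ := AddSubgroup.mem_sup.1 h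
      have hα1 : ∀ n, α.coeff n ∈ AA γ a := ((hWSR p (LS k) (FPB_SA hKB k g γ a hK)).1 α).1 hα
      have hβ1 : ∀ n, β.coeff n ∈ PS k := ((hWSR p (LS k) (FPB_SP k)).1 β).1 hβ
      have hα2 : ∀ n, ∃ f ∈ Reg P, α.coeff n = ι f := fun n => (hA _).1 (hα1 n)
      choose u hu hu2 using hα2
      obtain ⟨a', ha'⟩ : ∃ a' : WittVector p F, a' = WittVector.mk p u := ⟨_, rfl⟩
      have ha1 : ∀ n, a'.coeff n = u n := fun n => by
        rw [ha']
        rfl
      have ha2 : WittVector.map ι a' = α := by
        refine WittVector.ext fun n => ?_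
        rw [WittVector.map_coeff, ha1, hu2]
      have hu3 : ∀ n, u n ∈ (RegS {P} : Set F) := by
        intro n R hR
        exact hu n R (fun h0 => hR (by rw [h0]; exact Set.mem_singleton _))
      have ha3 : a' ∈ Wc p (RegS {P} : Set F) := AddSubgroup.subset_closure fun n => by
        rw [ha1]
        exact hu3 n
      have ha4 : a' ∈ Wc p (RegS {P, Q} : Set F) := AddSubgroup.subset_closure fun n => by
        rw [ha1]
        intro R hR
        exact hu3 n R (fun h0 => hR (by rw [Set.mem_singleton_iff.1 h0]; exact Set.mem_insert _ _))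
      have hz : x - a' ∈ Wc p (RegS {P, Q} : Set F) := AddSubgroup.sub_mem _ hx ha4
      have hz1 : ∀ n, (x - a').coeff n ∈ (RegS {P, Q} : Set F) := ((hWSR p F (FPB_SF {P, Q})).1 (x - a')).1 hz
      have hz2 : WittVector.map ι (x - a') = β := by
        rw [map_sub, ha2, ← hαβ]
        ring
      have hz3 : ∀ n, P.Ge 0 ((x - a').coeff n) := by
        intro n
        rw [← FPB_PS P ι hι, ← WittVector.map_coeff, hz2]
        exact hβ1 n
      have hz4 : x - a' ∈ Wc p (RegS {Q} : Set F) := AddSubgroup.subset_closure fun n => by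
        intro R hR
        by_cases hRP : R = P
        · rw [hRP]
          exact hz3 n
        · refine hz1 n R fun h0 => ?_
          rcases Set.mem_insert_iff.1 h0 with h1 | h1
          · exact hRP h1
          · exact hR h1
      refine AddSubgroup.mem_sup.2 ⟨a', ha3, x - a', hz4, ?_⟩
      ring
    · intro h
      obtain ⟨y, hy, z, hz, hyz⟩ := AddSubgroup.mem_sup.1 h
      rw [← hyz, map_add]
      refine AddSubgroup.add_mem _ (AddSubgroup.mem_sup_left ?_) (AddSubgroup.mem_sup_right ?_)
      · refine FPB_map p ι _ _ (fun f hf => ?_) y hy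
        refine (hA _).2 ⟨f, ?_, rfl⟩
        intro R hR
        exact hf R (fun h0 => hR (Set.mem_singleton_iff.1 h0))
      · refine FPB_map p ι _ _ (fun f hf => ?_) z hz
        refine (FPB_PS P ι hι f).2 (hf P fun h0 => hPQ (Set.mem_singleton_iff.1 h0))

end

end NPT
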